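import Pool.Agent.W5h69.FG.Defs

/-!
# (A) a slot `ρ_i` without the slot `ϖ_i` (helper21)
-/

set_option autoImplicit false

noncomputable section

open Pool.Agent.W5h69.FM (Vr To Form bil om)

namespace Pool.Agent.W5h69.FG

namespace Ax

variable {r : ℕ} {ι : Type} [Fintype ι] [DecidableEq ι]

omit [Fintype ι] in
theorem row_aux (β : Form r ι) (w : ι → Vr r × Vr r) (c : ι → ℝ) (t0 : ι) (S : Finset ι) :
    t0 ∉ S → β (fun t => if t ∈ S then w t + c t • w t0 else w t) = β w := by
  induction S using Finset.induction_on with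
  | empty =>
    intro _
    simp
  | insert a S ha ih =>
    intro h0
    have h0S : t0 ∉ S := fun h => h0 (Finset.mem_insert_of_mem h)
    have ha0 : a ≠ t0 := fun h => h0 (by rw [← h]; exact Finset.mem_insert_self a S)
    set g : ι → Vr r × Vr r := fun t => if t ∈ S then w t + c t • w t0 else w t with hg
    have h1 : (fun t => if t ∈ insert a S then w t + c t • w t0 else w t) =
        Function.update g a (w a + c a • w t0) := by
      funext t
      by_cases hta : t = a
      · subst hta
        rw [Function.update_self, if_pos (Finset.mem_insert_self t S)]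
      · rw [Function.update_of_ne hta, hg]
        simp only [Finset.mem_insert, hta, false_or]
    have hga : g a = w a := by rw [hg]; simp only [ha, if_false]
    have hg0 : g t0 = w t0 := by rw [hg]; simp only [h0S, if_false]
    rw [h1, AlternatingMap.map_update_add, AlternatingMap.map_update_smul]
    have h2 : Function.update g a (w a) = g := by rw [← hga, Function.update_eq_self]
    have h3 : β (Function.update g a (w t0)) = 0 := by
      apply β.map_eq_zero_of_eq _ _ ha0
      rw [Function.update_self, Function.update_of_ne ha0.symm, hg0]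
    rw [h2, h3, smul_zero, add_zero]
    exact ih h0S

theorem row_op (β : Form r ι) (w : ι → Vr r × Vr r) (c : ι → ℝ) (t0 : ι) :
    β (fun t => w t + c t • w t0) = (1 + c t0) * β w := by
  have h1 := row_aux β w c t0 (Finset.univ.erase t0) (Finset.notMem_erase t0 _)
  set g : ι → Vr r × Vr r :=
    fun t => if t ∈ Finset.univ.erase t0 then w t + c t • w t0 else w t with hg
  have hg0 : g t0 = w t0 := by rw [hg]; simp
  have h2 : (fun t => w t + c t • w t0) = Function.update g t0 ((1 + c t0) • g t0) := by
    funext t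
    by_cases ht : t = t0
    · subst ht
      rw [Function.update_self, hg0, add_smul, one_smul]
    · rw [Function.update_of_ne ht, hg]
      simp [ht]
  rw [h2, AlternatingMap.map_update_smul, Function.update_eq_self, h1, smul_eq_mul]

theorem vanish (D : Refl r) (β : Form r ι) (hβ : D.Inv β) (i : Fin r) (w : ι → Vr r × Vr r)
    (t0 : ι) (c : ι → ℝ) (hc : c t0 = -2)
    (hw : ∀ t, (D.s i (w t).1, D.s i (w t).2) = w t + c t • w t0) : β w = 0 := by
  have h1 := hβ i w
  have h2 : (fun t => (D.s i (w t).1, D.s i (w t).2)) = fun t => w t + c t • w t0 := funext hw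
  rw [h2, row_op, hc] at h1
  linarith

theorem bil_zero (B : Matrix (Fin r) (Fin r) ℝ) (x : Vr r) : bil B x 0 = 0 := by
  simp [bil]

theorem s_zero (D : Refl r) (i : Fin r) : D.s i 0 = 0 := by
  simp [Refl.s, bil_zero]

theorem s_varpi (D : Refl r) {i j : Fin r} (h : j ≠ i) : D.s i (D.ϖ j) = D.ϖ j := by
  simp [Refl.s, D.dual i j, h.symm]

theorem s_self (D : Refl r) (i : Fin r) : D.s i (D.ρ i) = D.ρ i + (-2 : ℝ) • D.ρ i := by
  have h : 2 * bil D.B (D.ρ i) (D.ρ i) / bil D.B (D.ρ i) (D.ρ i) = 2 := by
    field_simp [D.nz i]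
  rw [Refl.s, h, neg_smul, sub_eq_add_neg]

end Ax

open Ax in
theorem a : S_A := by
  intro r D ι _ _ β hβ v i h1 h2
  obtain ⟨t0, ht0⟩ := h1
  refine vanish D β hβ i (fun t => D.b1 (v t)) t0
    (fun t => Sum.elim (fun k => -(2 * bil D.B (D.ρ i) (D.ρ k) / bil D.B (D.ρ i) (D.ρ i)))
      (fun _ => 0) (v t)) ?_ ?_
  · simp only [ht0, Sum.elim_inl]
    field_simp [D.nz i]
  · intro t
    simp only [ht0]
    rcases hv : v t with k | k
    · simp only [Refl.b1, Sum.elim_inl]
      refine Prod.ext ?_ ?_
      · simp [Refl.s, sub_eq_add_neg, neg_smul]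
      · simp [s_zero]
    · have hk : k ≠ i := fun h => h2 t (by rw [hv, h])
      simp only [Refl.b1, Sum.elim_inl, Sum.elim_inr]
      refine Prod.ext ?_ ?_
      · simp [s_zero]
      · simp [s_varpi D hk]

end Pool.Agent.W5h69.FG
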