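import Pool.Agent.W5h69.FG.Defs

open MeasureTheory
open Pool.Agent.W5h69.FM (Vr To Form bil om)

noncomputable section

namespace Pool.Agent.W5h69.FG

/-- `bil` as a bilinear map -/
def BL {r : ℕ} (B : Matrix (Fin r) (Fin r) ℝ) : Vr r →ₗ[ℝ] Vr r →ₗ[ℝ] ℝ :=
  LinearMap.mk₂ ℝ (bil B)
    (fun x x' y => by
      simp only [bil, Pi.add_apply, mul_add, add_mul, Finset.sum_add_distrib])
    (fun c x y => by
      simp only [bil, Pi.smul_apply, smul_eq_mul, Finset.mul_sum]
      exact Finset.sum_congr rfl fun a _ => Finset.sum_congr rfl fun b _ => by ring)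
    (fun x y y' => by
      simp only [bil, Pi.add_apply, mul_add, Finset.sum_add_distrib])
    (fun c x y => by
      simp only [bil, Pi.smul_apply, smul_eq_mul, Finset.mul_sum]
      exact Finset.sum_congr rfl fun a _ => Finset.sum_congr rfl fun b _ => by ring)

theorem BL_apply {r : ℕ} (B : Matrix (Fin r) (Fin r) ℝ) (x y : Vr r) : BL B x y = bil B x y := rfl

theorem bil_expand {r : ℕ} (B : Matrix (Fin r) (Fin r) ℝ) (u x : Vr r) :
    bil B u x = ∑ p, bil B u (Pi.single p 1) * x p := by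
  have h : ∀ p, bil B u (Pi.single p 1) = ∑ i, B i p * u i := by
    intro p
    simp [bil, Pi.single_apply]
  simp_rw [h, bil, Finset.sum_mul]
  rw [Finset.sum_comm]

open Classical in
theorem bc_formula {r : ℕ} (D : Refl r) (c : Fin r) (x y : Vr r) :
    bil (D.Bc c) x y = ∑ i : Fin r, if D.Rel c i then
      bil D.B (D.ϖ i) x * bil D.B (D.ρ i) y else 0 := by
  have h : ∀ i : Fin r, (if D.Rel c i then bil D.B (D.ϖ i) x * bil D.B (D.ρ i) y else 0) =
      ∑ p, ∑ q, (if D.Rel c i then bil D.B (D.ϖ i) (Pi.single p 1) *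
        bil D.B (D.ρ i) (Pi.single q 1) else 0) * x p * y q := by
    intro i
    split_ifs with hi
    · rw [bil_expand D.B (D.ϖ i) x, bil_expand D.B (D.ρ i) y, Finset.sum_mul_sum]
      exact Finset.sum_congr rfl fun p _ => Finset.sum_congr rfl fun q _ => by ring
    · simp
  simp_rw [h]
  rw [bil]
  simp only [Refl.Bc, Finset.sum_mul]
  symm
  rw [Finset.sum_comm]
  refine Finset.sum_congr rfl fun p _ => ?_
  rw [Finset.sum_comm]

theorem bil_symm {r : ℕ} (D : Refl r) (x y : Vr r) : bil D.B x y = bil D.B y x := by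
  rw [bil, bil, Finset.sum_comm]
  refine Finset.sum_congr rfl fun i _ => Finset.sum_congr rfl fun j _ => ?_
  rw [D.symm j i]
  ring

theorem rel_symm {r : ℕ} (D : Refl r) {i j : Fin r} (h : bil D.B (D.ρ i) (D.ρ j) ≠ 0) (c : Fin r) :
    D.Rel c i ↔ D.Rel c j :=
  ⟨fun h1 => h1.tail h, fun h1 => h1.tail (by rwa [bil_symm])⟩

theorem expand_rho {r : ℕ} (D : Refl r) (y : Vr r) :
    y = ∑ i, bil D.B (D.ϖ i) y • D.ρ i := by
  let Φ : Vr r →ₗ[ℝ] Vr r := LinearMap.pi fun i => BL D.B (D.ϖ i)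
  let Ψ : Vr r →ₗ[ℝ] Vr r := Fintype.linearCombination ℝ D.ρ
  have h1 : Φ * Ψ = 1 := by
    refine LinearMap.ext fun x => funext fun j => ?_
    show BL D.B (D.ϖ j) (Fintype.linearCombination ℝ D.ρ x) = x j
    rw [Fintype.linearCombination_apply, map_sum]
    simp only [map_smul, BL_apply, smul_eq_mul]
    have : ∀ i, bil D.B (D.ϖ j) (D.ρ i) = if i = j then 1 else 0 := fun i => by
      rw [bil_symm, D.dual]
    simp [this]
  have h2 : Ψ * Φ = 1 := mul_eq_one_comm.1 h1
  have h3 : (Ψ * Φ) y = y := by rw [h2]; rfl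
  have h4 : (Ψ * Φ) y = ∑ i, bil D.B (D.ϖ i) y • D.ρ i := by
    show Fintype.linearCombination ℝ D.ρ (Φ y) = _
    rw [Fintype.linearCombination_apply]
    rfl
  rw [← h4, h3]

open Classical in
theorem bc_rho {r : ℕ} (D : Refl r) (c i : Fin r) (y : Vr r) :
    bil (D.Bc c) (D.ρ i) y = if D.Rel c i then bil D.B (D.ρ i) y else 0 := by
  rw [bc_formula]
  have : ∀ j, bil D.B (D.ϖ j) (D.ρ i) = if i = j then 1 else 0 := fun j => by
    rw [bil_symm, D.dual]
  simp only [this]
  rw [Finset.sum_eq_single i]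
  · simp
  · intro j _ hj
    simp [Ne.symm hj]
  · simp

theorem bc_symm {r : ℕ} (D : Refl r) (c : Fin r) (x y : Vr r) :
    bil (D.Bc c) x y = bil (D.Bc c) y x := by
  classical
  have h : ∀ i j, bil (D.Bc c) (D.ρ i) (D.ρ j) = bil (D.Bc c) (D.ρ j) (D.ρ i) := by
    intro i j
    rw [bc_rho, bc_rho]
    by_cases h0 : bil D.B (D.ρ i) (D.ρ j) = 0
    · rw [bil_symm D (D.ρ j), h0]; simp
    · rw [bil_symm D (D.ρ j)]
      simp only [rel_symm D h0 c]
  have e : ∀ x y : Vr r, bil (D.Bc c) x y = ∑ i, ∑ j, bil D.B (D.ϖ i) x * bil D.B (D.ϖ j) y *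
      bil (D.Bc c) (D.ρ i) (D.ρ j) := by
    intro x y
    conv_lhs => rw [expand_rho D x, expand_rho D y, ← BL_apply]
    simp only [map_sum, map_smul, LinearMap.sum_apply, LinearMap.smul_apply, smul_eq_mul, BL_apply,
      Finset.mul_sum]
    rw [Finset.sum_comm]
    exact Finset.sum_congr rfl fun i _ => Finset.sum_congr rfl fun j _ => by ring
  rw [e x y, e y x, Finset.sum_comm]
  refine Finset.sum_congr rfl fun i _ => Finset.sum_congr rfl fun j _ => ?_
  rw [h j i]
  ring

theorem bc : S_BC := by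
  classical
  intro r D c
  refine ⟨bc_symm D c, ?_, ?_⟩
  · intro i x y
    have e1 : ∀ z, bil (D.Bc c) z (D.ρ i) = if D.Rel c i then bil D.B (D.ρ i) z else 0 := fun z => by
      rw [bc_symm, bc_rho]
    have key : ∀ k l : ℝ, bil (D.Bc c) (x - k • D.ρ i) (y - l • D.ρ i) =
        bil (D.Bc c) x y - k * bil (D.Bc c) (D.ρ i) y - l * bil (D.Bc c) x (D.ρ i) +
          k * l * bil (D.Bc c) (D.ρ i) (D.ρ i) := by
      intro k l
      rw [← BL_apply, ← BL_apply, ← BL_apply, ← BL_apply, ← BL_apply]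
      simp only [map_sub, map_smul, LinearMap.sub_apply, LinearMap.smul_apply, smul_eq_mul]
      ring
    rw [Refl.s, Refl.s, key, e1, bc_rho, bc_rho]
    split_ifs with hi
    · have := D.nz i
      field_simp
      ring
    · ring
  · intro i j
    constructor
    · intro hi
      rw [bc_rho, if_pos hi, D.dual]
    · intro hi
      rw [bc_rho, if_neg hi]

end Pool.Agent.W5h69.FG
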