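import Pool.Agent.W5h69.FG.Defs

/-!
# (C) sliding
-/

open MeasureTheory

noncomputable section

open Pool.Agent.W5h69.FM (Vr To Form bil om)

namespace Pool.Agent.W5h69.FG

namespace CL

lemma bil_ss {r : ℕ} (B : Matrix (Fin r) (Fin r) ℝ) (x y z : Vr r) (a : ℝ) :
    bil B x (y - a • z) = bil B x y - a * bil B x z := by
  unfold bil
  rw [Finset.mul_sum, ← Finset.sum_sub_distrib]
  refine Finset.sum_congr rfl fun i _ => ?_
  rw [Finset.mul_sum, ← Finset.sum_sub_distrib]
  refine Finset.sum_congr rfl fun j _ => ?_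
  simp only [Pi.sub_apply, Pi.smul_apply, smul_eq_mul]
  ring

lemma bil_zero {r : ℕ} (B : Matrix (Fin r) (Fin r) ℝ) (x : Vr r) : bil B x 0 = 0 := by
  unfold bil
  simp

lemma bil_comm {r : ℕ} (D : Refl r) (x y : Vr r) : bil D.B x y = bil D.B y x := by
  unfold bil
  rw [Finset.sum_comm]
  refine Finset.sum_congr rfl fun i _ => Finset.sum_congr rfl fun j _ => ?_
  rw [D.symm j i]
  ring

lemma s_fix {r : ℕ} (D : Refl r) (i : Fin r) (x : Vr r) (h : bil D.B (D.ρ i) x = 0) :
    D.s i x = x := by
  unfold Refl.s
  rw [h]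
  simp

section alt

variable {M : Type} [AddCommGroup M] [Module ℝ M] {ι : Type} [DecidableEq ι]

lemma rowop_aux (β : AlternatingMap ℝ M ℝ ι) (v : ι → M) (t0 : ι) (c : ι → ℝ) (S : Finset ι)
    (hS : t0 ∉ S) : β (fun t => if t ∈ S then v t + c t • v t0 else v t) = β v := by
  induction S using Finset.induction_on with
  | empty => simp
  | insert a S ha ih =>
    have hne : t0 ≠ a := fun h => hS (h ▸ Finset.mem_insert_self _ _)
    have hS' : t0 ∉ S := fun h => hS (Finset.mem_insert_of_mem h)
    have ih' := ih hS'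
    set f : ι → M := fun t => if t ∈ S then v t + c t • v t0 else v t with hf
    have h1 : (fun t => if t ∈ insert a S then v t + c t • v t0 else v t) =
        Function.update f a (f a + c a • v t0) := by
      funext t
      by_cases hta : t = a
      · subst hta
        simp [hf, ha]
      · rw [Function.update_of_ne hta]
        simp [hf, hta]
    have h2 : β (Function.update f a (v t0)) = 0 := by
      refine AlternatingMap.map_eq_zero_of_eq β _ (i := a) (j := t0) ?_ hne.symm
      rw [Function.update_self, Function.update_of_ne hne]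
      simp [hf, hS']
    rw [h1, AlternatingMap.map_update_add, AlternatingMap.map_update_smul, h2,
      Function.update_eq_self, smul_zero, add_zero, ih']

lemma rowop [Fintype ι] (β : AlternatingMap ℝ M ℝ ι) (v : ι → M) (t0 : ι) (c : ι → ℝ)
    (hc : c t0 = 0) : β (fun t => v t + c t • v t0) = β v := by
  rw [← rowop_aux β v t0 c (Finset.univ.erase t0) (Finset.notMem_erase _ _)]
  congr 1
  funext t
  by_cases ht : t = t0
  · subst ht
    simp [hc]
  · simp [ht]

end alt

/-- (A) with arbitrary vectors of the first kind -/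
lemma astar {r : ℕ} (D : Refl r) {ι : Type} [Fintype ι] [DecidableEq ι] (β : Form r ι)
    (hβ : D.Inv β) (i : Fin r) (v : ι → Vr r × Vr r) (t0 : ι) (h0 : v t0 = (D.ρ i, 0))
    (hv : ∀ t, bil D.B (D.ρ i) (v t).2 = 0) : β v = 0 := by
  have hnz := D.nz i
  set c : ι → ℝ := fun t => if t = t0 then 0 else
    -(2 * bil D.B (D.ρ i) (v t).1 / bil D.B (D.ρ i) (D.ρ i)) with hc
  set f : ι → Vr r × Vr r := fun t => v t + c t • v t0 with hf
  have h1 : (fun t => (D.s i (v t).1, D.s i (v t).2)) =
      Function.update f t0 ((-1 : ℝ) • f t0) := by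
    funext t
    rw [s_fix D i (v t).2 (hv t)]
    by_cases ht : t = t0
    · subst ht
      rw [Function.update_self]
      have h2 : f t = (D.ρ i, 0) := by
        simp [hf, hc, h0]
      rw [h2, h0]
      unfold Refl.s
      rw [mul_div_assoc, div_self hnz]
      ext k
      · simp only [Prod.smul_fst, Pi.sub_apply, Pi.smul_apply, smul_eq_mul]
        ring
      · simp
    · rw [Function.update_of_ne ht]
      simp only [hf, hc, ht, if_false, h0]
      unfold Refl.s
      ext k
      · simp only [Prod.fst_add, Prod.smul_fst, Pi.sub_apply, Pi.add_apply, Pi.smul_apply,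
          smul_eq_mul]
        ring
      · simp
  have h3 := hβ i v
  rw [h1, AlternatingMap.map_update_smul, Function.update_eq_self,
    rowop β v t0 c (by simp [hc])] at h3
  simp only [smul_eq_mul] at h3
  linarith

/-- adding multiples of `(ρ_i, 0)` -/
lemma shift {r : ℕ} (D : Refl r) {ι : Type} [Fintype ι] [DecidableEq ι] (β : Form r ι)
    (hβ : D.Inv β) (i : Fin r) (v : ι → Vr r × Vr r)
    (hv : ∀ t, bil D.B (D.ρ i) (v t).2 = 0) (c : ι → ℝ) (S : Finset ι) :
    β (fun t => if t ∈ S then v t + c t • ((D.ρ i, 0) : Vr r × Vr r) else v t) = β v := by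
  induction S using Finset.induction_on with
  | empty => simp
  | insert a S ha ih =>
    set f : ι → Vr r × Vr r :=
      fun t => if t ∈ S then v t + c t • ((D.ρ i, 0) : Vr r × Vr r) else v t with hf
    have h1 : (fun t => if t ∈ insert a S then v t + c t • ((D.ρ i, 0) : Vr r × Vr r) else v t) =
        Function.update f a (f a + c a • ((D.ρ i, 0) : Vr r × Vr r)) := by
      funext t
      by_cases hta : t = a
      · subst hta
        simp [hf, ha]
      · rw [Function.update_of_ne hta]
        simp [hf, hta]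
    have h2 : β (Function.update f a ((D.ρ i, 0) : Vr r × Vr r)) = 0 := by
      refine astar D β hβ i _ a (Function.update_self _ _ _) fun t => ?_
      by_cases hta : t = a
      · subst hta
        rw [Function.update_self]
        exact bil_zero _ _
      · rw [Function.update_of_ne hta]
        by_cases htS : t ∈ S
        · have : (f t).2 = (v t).2 := by simp [hf, htS]
          rw [this]
          exact hv t
        · have : (f t).2 = (v t).2 := by simp [hf, htS]
          rw [this]
          exact hv t
    rw [h1, AlternatingMap.map_update_add, AlternatingMap.map_update_smul, h2,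
      Function.update_eq_self, smul_zero, add_zero, ih]

end CL

open CL in
theorem c (_hA : S_A) : S_C := by
  intro r m D β hβ τ j b hτ hb hjb
  set i := τ j with hi
  have hnz := D.nz i
  have hbi : b ≠ i := fun h => hb j (by rw [← hi, h])
  set k : Fin m × Bool → ℝ := fun t => bil D.B (D.ρ i) (D.ρ (τ t.1)) / bil D.B (D.ρ i) (D.ρ i)
    with hk
  set u : Fin m × Bool → Vr r × Vr r := fun t =>
    if t.2 then (0, D.ϖ (τ t.1)) else (D.ρ (τ t.1) - k t • D.ρ i, 0) with hu
  set G : Vr r × Vr r → Vr r × Vr r → (Fin m × Bool → Vr r × Vr r) := fun x y =>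
    Function.update (Function.update u (j, false) x) (j, true) y with hG
  have hne : ((j, false) : Fin m × Bool) ≠ (j, true) := by simp
  have hG' : ∀ x y, G x y = Function.update (Function.update u (j, true) y) (j, false) x := by
    intro x y
    simp only [hG]
    rw [Function.update_comm hne]
  have G1 : ∀ x y, G x y (j, false) = x := fun x y => by
    simp only [hG]
    rw [Function.update_of_ne hne, Function.update_self]
  have G2 : ∀ x y, G x y (j, true) = y := fun x y => by
    simp only [hG]
    rw [Function.update_self]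
  have G3 : ∀ x y l, l ≠ j → G x y (l, false) = (D.ρ (τ l) - k (l, false) • D.ρ i, 0) := by
    intro x y l hl
    simp only [hG]
    rw [Function.update_of_ne (by simp), Function.update_of_ne (by simp [hl])]
    simp [hu]
  have G4 : ∀ x y l, l ≠ j → G x y (l, true) = (0, D.ϖ (τ l)) := by
    intro x y l hl
    simp only [hG]
    rw [Function.update_of_ne (by simp [hl]), Function.update_of_ne (by simp)]
    simp [hu]
  -- vanishing by `astar`
  have hvan : ∀ (a : Fin r) (y : Vr r), (∀ l, l ≠ j → τ l ≠ a) → bil D.B (D.ρ a) y = 0 →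
      β (G (D.ρ a, 0) (0, y)) = 0 := by
    intro a y ha hy
    refine astar D β hβ a _ (j, false) (G1 _ _) ?_
    rintro ⟨l, t⟩
    by_cases hl : l = j
    · subst hl
      cases t
      · rw [G1]
        exact bil_zero _ _
      · rw [G2]
        exact hy
    · cases t
      · rw [G3 _ _ l hl]
        exact bil_zero _ _
      · rw [G4 _ _ l hl]
        simp only
        rw [D.dual, if_neg (ha l hl).symm]
  have hlin2 : ∀ (x y z : Vr r × Vr r) (a : ℝ),
      β (G x (y - a • z)) = β (G x y) - a * β (G x z) := by
    intro x y z a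
    simp only [hG]
    rw [AlternatingMap.map_update_sub, AlternatingMap.map_update_smul, smul_eq_mul]
  have hlin1 : ∀ (x y z : Vr r × Vr r) (a : ℝ),
      β (G (x - a • z) y) = β (G x y) - a * β (G z y) := by
    intro x y z a
    simp only [hG']
    rw [AlternatingMap.map_update_sub, AlternatingMap.map_update_smul, smul_eq_mul]
  -- evaluation of the functional in the last slot
  have hev : ∀ (a : Fin r) (y : Vr r), (∀ l, l ≠ j → τ l ≠ a) →
      β (G (D.ρ a, 0) (0, y)) = bil D.B (D.ρ a) y * β (G (D.ρ a, 0) (0, D.ϖ a)) := by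
    intro a y ha
    have h1 := hvan a (y - bil D.B (D.ρ a) y • D.ϖ a) ha (by
      rw [bil_ss, D.dual, if_pos rfl]
      ring)
    have h2 : ((0, y - bil D.B (D.ρ a) y • D.ϖ a) : Vr r × Vr r) =
        (0, y) - bil D.B (D.ρ a) y • (0, D.ϖ a) := by
      ext <;> simp
    rw [h2, hlin2] at h1
    linarith
  -- invariance
  set x0 : Vr r := D.ρ b - (bil D.B (D.ρ i) (D.ρ b) / bil D.B (D.ρ i) (D.ρ i)) • D.ρ i with hx0
  have hx0f : D.s i x0 = x0 := by
    refine s_fix D i _ ?_
    rw [hx0, bil_ss, div_mul_cancel₀ _ hnz, sub_self]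
  have h0f : D.s i 0 = 0 := s_fix D i 0 (bil_zero _ _)
  have hsϖ : D.s i (D.ϖ i) = D.ϖ i - (2 / bil D.B (D.ρ i) (D.ρ i)) • D.ρ i := by
    unfold Refl.s
    rw [D.dual, if_pos rfl, mul_one]
  have hinv := hβ i (G (x0, 0) (0, D.ϖ i))
  have hfun : (fun t => (D.s i (G (x0, 0) (0, D.ϖ i) t).1, D.s i (G (x0, 0) (0, D.ϖ i) t).2)) =
      G (x0, 0) ((0, D.ϖ i) - (2 / bil D.B (D.ρ i) (D.ρ i)) • (0, D.ρ i)) := by
    funext t
    obtain ⟨l, t⟩ := t
    by_cases hl : l = j
    · subst hl
      cases t
      · rw [G1, G1]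
        simp only
        rw [hx0f, h0f]
      · rw [G2, G2]
        simp only
        rw [hsϖ, h0f]
        ext <;> simp
    · cases t
      · rw [G3 _ _ l hl, G3 _ _ l hl]
        simp only
        rw [h0f, s_fix D i _ (by
          rw [bil_ss]
          simp only [hk]
          rw [div_mul_cancel₀ _ hnz, sub_self])]
      · rw [G4 _ _ l hl, G4 _ _ l hl]
        simp only
        rw [h0f, s_fix D i _ (by
          rw [D.dual, if_neg]
          intro h
          exact hl (hτ h.symm))]
  rw [hfun, hlin2] at hinv
  have h2nz : (2 / bil D.B (D.ρ i) (D.ρ i)) ≠ 0 := div_ne_zero two_ne_zero hnz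
  have hkey : β (G (x0, 0) (0, D.ρ i)) = 0 := by
    have : (2 / bil D.B (D.ρ i) (D.ρ i)) * β (G (x0, 0) (0, D.ρ i)) = 0 := by linarith
    exact (mul_eq_zero.1 this).resolve_left h2nz
  have hx0' : ((x0, 0) : Vr r × Vr r) =
      (D.ρ b, 0) - (bil D.B (D.ρ i) (D.ρ b) / bil D.B (D.ρ i) (D.ρ i)) • (D.ρ i, 0) := by
    rw [hx0]
    ext <;> simp
  rw [hx0', hlin1, hev b (D.ρ i) (fun l _ => hb l),
    hev i (D.ρ i) (fun l hl h => hl (hτ (h.trans hi)))] at hkey
  -- the two values
  have hv1 : β (G (D.ρ i, 0) (0, D.ϖ i)) = β (D.z τ) := by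
    rw [← rowop β (D.z τ) (j, false) (fun t => if t.1 = j ∨ t.2 = true then 0 else -k t) (by simp)]
    congr 1
    funext t
    obtain ⟨l, t⟩ := t
    by_cases hl : l = j
    · subst hl
      cases t
      · rw [G1]
        simp [Refl.z, hi]
      · rw [G2]
        simp [Refl.z, hi]
    · cases t
      · rw [G3 _ _ l hl]
        ext <;> simp [Refl.z, hl, hi, sub_eq_add_neg]
      · rw [G4 _ _ l hl]
        simp [Refl.z]
  have hv2 : β (G (D.ρ b, 0) (0, D.ϖ b)) = β (D.z (Function.update τ j b)) := by
    rw [← shift D β hβ i (D.z (Function.update τ j b)) ?_ (fun t => -k t)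
      (Finset.univ.filter fun t => ¬ (t.1 = j ∨ t.2 = true))]
    · congr 1
      funext t
      obtain ⟨l, t⟩ := t
      by_cases hl : l = j
      · subst hl
        cases t
        · rw [G1]
          simp [Refl.z]
        · rw [G2]
          simp [Refl.z]
      · cases t
        · rw [G3 _ _ l hl]
          ext <;> simp [Refl.z, hl, sub_eq_add_neg]
        · rw [G4 _ _ l hl]
          simp [Refl.z, hl]
    · rintro ⟨l, t⟩
      cases t
      · simp [Refl.z, bil_zero]
      · simp only [Refl.z, if_true]
        rw [D.dual, if_neg]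
        intro h
        by_cases hl : l = j
        · subst hl
          rw [Function.update_self] at h
          exact hbi h.symm
        · rw [Function.update_of_ne hl] at h
          exact hl (hτ h.symm)
  rw [hv1, hv2, bil_comm D (D.ρ b) (D.ρ i)] at hkey
  have h5 : bil D.B (D.ρ i) (D.ρ b) * (β (D.z (Function.update τ j b)) - β (D.z τ)) = 0 := by
    have h6 : bil D.B (D.ρ i) (D.ρ b) / bil D.B (D.ρ i) (D.ρ i) *
        (bil D.B (D.ρ i) (D.ρ i) * β (D.z τ)) = bil D.B (D.ρ i) (D.ρ b) * β (D.z τ) := by
      field_simp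
    rw [h6] at hkey
    linarith
  have h7 := (mul_eq_zero.1 h5).resolve_left hjb
  linarith

end Pool.Agent.W5h69.FG
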