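import Pool.Agent.W5h69.FG.Defs

/-!
# MP_d52947_gt : piece (CC), semisimple case
-/

open MeasureTheory
open Pool.Agent.W5h69.FM (Vr To Form bil om)

noncomputable section

namespace Pool.Agent.W5h69.FG

namespace PCC

variable {r m : ℕ}

theorem perm_inv (D : Refl r) (β : Form r (Fin m × Bool)) (τ : Fin m → Fin r)
    (π : Equiv.Perm (Fin m)) : β (D.z (τ ∘ π)) = β (D.z τ) := by
  have h1 : D.z (τ ∘ π) = D.z τ ∘ (Equiv.prodCongrLeft (fun _ : Bool => π)) := by
    funext x
    obtain ⟨x, b⟩ := x
    simp [Refl.z]
  rw [h1, AlternatingMap.map_perm, Equiv.Perm.sign_prodCongrLeft]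
  simp

theorem exchange (h : S_C) (D : Refl r) (β : Form r (Fin m × Bool)) (hβ : D.Inv β)
    (a b : Fin r) (hab : D.Rel a b) (τ : Fin m → Fin r) (hτ : Function.Injective τ) (j : Fin m)
    (hj : τ j = a)
    (hb : b = a ∨ ∀ l, τ l ≠ b) : β (D.z τ) = β (D.z (Function.update τ j b)) := by
  have key : ∀ c : Fin r, Relation.ReflTransGen (fun a b => bil D.B (D.ρ a) (D.ρ b) ≠ 0) a c →
      ∀ τ : Fin m → Fin r, Function.Injective τ → ∀ j : Fin m, τ j = a →
      (c = a ∨ ∀ l, τ l ≠ c) → β (D.z τ) = β (D.z (Function.update τ j c)) := by
    intro c hc
    induction hc with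
    | refl =>
      intro τ _ j hj _
      rw [← hj, Function.update_eq_self]
    | @tail b c _ hbc ih =>
      intro τ hτ j hj hc
      rcases hc with rfl | hc
      · rw [← hj, Function.update_eq_self]
      by_cases hba : b = a
      · subst hba
        exact h r m D β hβ τ j c hτ hc (by rw [hj]; exact hbc)
      by_cases hbr : ∃ k, τ k = b
      · obtain ⟨k, hk⟩ := hbr
        have hkj : k ≠ j := by
          rintro rfl
          exact hba (hk.symm.trans hj)
        have e1 : β (D.z τ) = β (D.z (Function.update τ k c)) :=
          h r m D β hβ τ k c hτ hc (by rw [hk]; exact hbc)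
        have hinj2 : Function.Injective (Function.update τ k c) := by
          intro x y hxy
          by_cases hx : x = k
          · by_cases hy : y = k
            · rw [hx, hy]
            · rw [hx, Function.update_self, Function.update_of_ne hy] at hxy
              exact absurd hxy.symm (hc y)
          · by_cases hy : y = k
            · rw [hy, Function.update_self, Function.update_of_ne hx] at hxy
              exact absurd hxy (hc x)
            · rw [Function.update_of_ne hx, Function.update_of_ne hy] at hxy
              exact hτ hxy
        have hb2 : ∀ l, Function.update τ k c l ≠ b := by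
          intro l
          by_cases hl : l = k
          · rw [hl, Function.update_self]
            rintro rfl
            exact hc k hk
          · rw [Function.update_of_ne hl, ← hk]
            exact fun h' => hl (hτ h')
        have e2 := ih _ hinj2 j (by rw [Function.update_of_ne hkj.symm]; exact hj) (Or.inr hb2)
        have e3 : Function.update (Function.update τ k c) j b =
            Function.update τ j c ∘ (Equiv.swap j k) := by
          funext l
          simp only [Function.comp_apply]
          by_cases hlj : l = j
          · subst hlj
            rw [Equiv.swap_apply_left, Function.update_self, Function.update_of_ne hkj, hk]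
          · by_cases hlk : l = k
            · subst hlk
              rw [Equiv.swap_apply_right, Function.update_of_ne hlj, Function.update_self,
                Function.update_self]
            · rw [Equiv.swap_apply_of_ne_of_ne hlj hlk, Function.update_of_ne hlj,
                Function.update_of_ne hlk, Function.update_of_ne hlj]
        rw [e1, e2, e3, perm_inv]
      · push Not at hbr
        have e1 := ih τ hτ j hj (Or.inr hbr)
        by_cases hcb : c = b
        · rw [hcb]; exact e1
        have hinj2 : Function.Injective (Function.update τ j b) := by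
          intro x y hxy
          by_cases hx : x = j
          · by_cases hy : y = j
            · rw [hx, hy]
            · rw [hx, Function.update_self, Function.update_of_ne hy] at hxy
              exact absurd hxy.symm (hbr y)
          · by_cases hy : y = j
            · rw [hy, Function.update_self, Function.update_of_ne hx] at hxy
              exact absurd hxy (hbr x)
            · rw [Function.update_of_ne hx, Function.update_of_ne hy] at hxy
              exact hτ hxy
        have e2 := h r m D β hβ (Function.update τ j b) j c hinj2 (by
          intro l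
          by_cases hl : l = j
          · rw [hl, Function.update_self]
            exact fun h' => hcb h'.symm
          · rw [Function.update_of_ne hl]
            exact hc l) (by rw [Function.update_self]; exact hbc)
        rw [e1, e2, Function.update_idem]
  exact key b hab τ hτ j hj hb

theorem step (h : S_C) (D : Refl r) (β : Form r (Fin m × Bool)) (hβ : D.Inv β)
    (τ τ' : Fin m → Fin r) (hτ : Function.Injective τ) (hτ' : Function.Injective τ')
    (hR : ∀ l, D.Rel (τ l) (τ' l)) (j : Fin m) :
    ∃ τ₁ : Fin m → Fin r, Function.Injective τ₁ ∧ β (D.z τ) = β (D.z τ₁) ∧ τ₁ j = τ' j ∧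
      (∀ l, τ l = τ' l → τ₁ l = τ' l) ∧ ∀ l, D.Rel (τ₁ l) (τ' l) := by
  by_cases hj : τ j = τ' j
  · exact ⟨τ, hτ, rfl, hj, fun l hl => hl, hR⟩
  by_cases hr : ∃ k, τ k = τ' j
  · obtain ⟨k, hk⟩ := hr
    refine ⟨τ ∘ Equiv.swap j k, hτ.comp (Equiv.injective _), (perm_inv D β τ _).symm, ?_, ?_, ?_⟩
    · rw [Function.comp_apply, Equiv.swap_apply_left, hk]
    rotate_left
    · intro l
      by_cases hlj : l = j
      · subst hlj
        rw [Function.comp_apply, Equiv.swap_apply_left, hk]
        exact Relation.ReflTransGen.refl
      by_cases hlk : l = k
      · subst hlk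
        rw [Function.comp_apply, Equiv.swap_apply_right]
        have h1 := hR j
        rw [← hk] at h1
        exact Relation.ReflTransGen.trans h1 (hR l)
      · rw [Function.comp_apply, Equiv.swap_apply_of_ne_of_ne hlj hlk]
        exact hR l
    · intro l hl
      have hlj : l ≠ j := by
        rintro rfl
        exact hj hl
      have hlk : l ≠ k := by
        rintro rfl
        exact hlj (hτ' (hl.symm.trans hk))
      rw [Function.comp_apply, Equiv.swap_apply_of_ne_of_ne hlj hlk, hl]
  · push Not at hr
    refine ⟨Function.update τ j (τ' j), ?_,
      exchange h D β hβ _ _ (hR j) τ hτ j rfl (Or.inr hr), ?_, ?_, ?_⟩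
    · intro x y hxy
      by_cases hx : x = j
      · by_cases hy : y = j
        · rw [hx, hy]
        · rw [hx, Function.update_self, Function.update_of_ne hy] at hxy
          exact absurd hxy.symm (hr y)
      · by_cases hy : y = j
        · rw [hy, Function.update_self, Function.update_of_ne hx] at hxy
          exact absurd hxy (hr x)
        · rw [Function.update_of_ne hx, Function.update_of_ne hy] at hxy
          exact hτ hxy
    · rw [Function.update_self]
    · intro l hl
      have hlj : l ≠ j := by
        rintro rfl
        exact hj hl
      rw [Function.update_of_ne hlj, hl]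
    · intro l
      by_cases hlj : l = j
      · subst hlj
        rw [Function.update_self]
        exact Relation.ReflTransGen.refl
      · rw [Function.update_of_ne hlj]
        exact hR l

end PCC

open PCC in
theorem cc (h : S_C) : S_CC := by
  classical
  intro r m D β hβ τ0 τ' hτ0 hτ' ⟨π, hπ⟩
  have hτ : Function.Injective (τ0 ∘ π) := hτ0.comp π.injective
  rw [← perm_inv D β τ0 π]
  have key : ∀ s : Finset (Fin m), ∃ τ₁ : Fin m → Fin r, Function.Injective τ₁ ∧
      β (D.z (τ0 ∘ π)) = β (D.z τ₁) ∧ (∀ l ∈ s, τ₁ l = τ' l) ∧ ∀ l, D.Rel (τ₁ l) (τ' l) := by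
    intro s
    induction s using Finset.induction_on with
    | empty => exact ⟨τ0 ∘ π, hτ, rfl, by simp, hπ⟩
    | insert j s _ ih =>
      obtain ⟨τ₁, h1, h2, h3, h3'⟩ := ih
      obtain ⟨τ₂, h4, h5, h6, h7, h8⟩ := step h D β hβ τ₁ τ' h1 hτ' h3' j
      refine ⟨τ₂, h4, h2.trans h5, fun l hl => ?_, h8⟩
      rcases Finset.mem_insert.1 hl with rfl | hl
      · exact h6
      · exact h7 l (h3 l hl)
  obtain ⟨τ₁, -, h2, h3, -⟩ := key Finset.univ
  have : τ₁ = τ' := funext fun l => h3 l (Finset.mem_univ l)
  rw [h2, this]

end Pool.Agent.W5h69.FG
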