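import Pool.Agent.W5h69.FG.Defs
import Pool.Agent.W5h69.FM.Om

/-! (OM): the wedge product of the forms `ω_{B_j}` is an alternating form. -/

set_option autoImplicit false

noncomputable section

namespace Pool.Agent.W5h69.FG

open Pool.Agent.W5h69.FM (Vr To Form bil om om_add_left om_add_right om_smul_left om_smul_right)

section
variable {r m : ℕ} (Bs : Fin m → Matrix (Fin r) (Fin r) ℝ)

theorem omp_prod_update [DecidableEq (Fin m × Bool)] (v : Fin m × Bool → Vr r × Vr r)
    (j : Fin m) (b : Bool) (x : Vr r × Vr r) :
    ∏ l : Fin m, om (Bs l) (Function.update v (j, b) x (l, false))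
        (Function.update v (j, b) x (l, true))
      = (if b then om (Bs j) (v (j, false)) x else om (Bs j) x (v (j, true))) *
        ∏ l ∈ Finset.univ.erase j, om (Bs l) (v (l, false)) (v (l, true)) := by
  rw [← Finset.mul_prod_erase Finset.univ _ (Finset.mem_univ j)]
  congr 1
  · cases b
    · rw [Function.update_self, Function.update_of_ne (by simp)]
      simp
    · rw [Function.update_self, Function.update_of_ne (by simp)]
      simp
  · refine Finset.prod_congr rfl fun l hl => ?_
    have hne : l ≠ j := Finset.ne_of_mem_erase hl
    rw [Function.update_of_ne (fun h => hne (congrArg Prod.fst h)),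
      Function.update_of_ne (fun h => hne (congrArg Prod.fst h))]

/-- the product of the values of the `ω_{B_j}` as a multilinear map -/
def ompMul : MultilinearMap ℝ (fun _ : Fin m × Bool => Vr r × Vr r) ℝ where
  toFun v := ∏ l : Fin m, om (Bs l) (v (l, false)) (v (l, true))
  map_update_add' := by
    rintro _ v ⟨j, b⟩ x y
    rw [omp_prod_update, omp_prod_update, omp_prod_update]
    cases b
    · simp only [Bool.false_eq_true, if_false]
      rw [om_add_left, add_mul]
    · simp only [if_true]
      rw [om_add_right, add_mul]
  map_update_smul' := by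
    rintro _ v ⟨j, b⟩ c x
    rw [omp_prod_update, omp_prod_update, smul_eq_mul]
    cases b
    · simp only [Bool.false_eq_true, if_false]
      rw [om_smul_left, mul_assoc]
    · simp only [if_true]
      rw [om_smul_right, mul_assoc]

end

theorem om_form : S_OM := by
  intro r m Bs
  refine ⟨MultilinearMap.alternatization (ompMul Bs), fun v => ?_⟩
  rw [MultilinearMap.alternatization_apply]
  unfold omProd
  refine Finset.sum_congr rfl fun σ _ => ?_
  rw [MultilinearMap.domDomCongr_apply]
  rw [Units.smul_def, zsmul_eq_mul]
  rfl

end Pool.Agent.W5h69.FG
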