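import Pool.Agent.W5h69.FG.Defs

/-!
# (Z) values of the products on the vectors `z`
-/

open Pool.Agent.W5h69.FM (Vr To Form bil om)

noncomputable section

namespace Pool.Agent.W5h69.FG

namespace ZZ

open Classical in
theorem om_z (h : S_BC) {r m : ℕ} (D : Refl r) (c : Fin r) (τ : Fin m → Fin r)
    (hτ : Function.Injective τ) (x y : Fin m × Bool) :
    om (D.Bc c) (D.z τ x) (D.z τ y) =
      if x.1 = y.1 ∧ y.2 = !x.2 ∧ D.Rel c (τ x.1) then (if x.2 then -1 else 1) else 0 := by
  obtain ⟨a, p⟩ := x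
  obtain ⟨b, q⟩ := y
  obtain ⟨hs, _, hv⟩ := h r D c
  have h0 : ∀ u : Vr r, bil (D.Bc c) u 0 = 0 := fun u => by simp [bil]
  have h1 : ∀ u : Vr r, bil (D.Bc c) 0 u = 0 := fun u => by simp [bil]
  have h4 : ∀ a b : Fin m, bil (D.Bc c) (D.ρ (τ a)) (D.ϖ (τ b)) =
      if a = b ∧ D.Rel c (τ a) then 1 else 0 := by
    intro a b
    by_cases hr : D.Rel c (τ a)
    · rw [(hv (τ a) (τ b)).1 hr]
      by_cases h : a = b
      · simp [h, h ▸ hr]
      · rw [if_neg (fun h' => h (hτ h')), if_neg (fun h' => h h'.1)]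
    · rw [(hv (τ a) (τ b)).2 hr, if_neg (fun h' => hr h'.2)]
  have h3 : bil (D.Bc c) (D.ϖ (τ a)) (D.ρ (τ b)) = if a = b ∧ D.Rel c (τ a) then 1 else 0 := by
    rw [hs, h4]
    by_cases h : a = b
    · simp [h]
    · rw [if_neg (fun h' => h h'.1.symm), if_neg (fun h' => h h'.1)]
  cases p <;> cases q <;> simp [om, Refl.z, h0, h1, h3, h4]
  by_cases h : a = b ∧ D.Rel c (τ a)
  · obtain ⟨rfl, h2⟩ := h
    simp [h2]
  · simp [h]

/-- every term is nonnegative, and a nonzero term comes from a permutation -/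
theorem term_nonneg (hBC : S_BC) {r m : ℕ} (D : Refl r) (c τ : Fin m → Fin r)
    (hτ : Function.Injective τ) (σ : Equiv.Perm (Fin m × Bool)) :
    (0 ≤ ((Equiv.Perm.sign σ : ℤ) : ℝ) *
      ∏ j : Fin m, om (D.Bc (c j)) (D.z τ (σ (j, false))) (D.z τ (σ (j, true)))) ∧
    ((¬ ∃ π : Equiv.Perm (Fin m), ∀ j, D.Rel (c (π j)) (τ j)) → 
      ∏ j : Fin m, om (D.Bc (c j)) (D.z τ (σ (j, false))) (D.z τ (σ (j, true))) = 0) := by
  classical
  by_cases hz : ∏ j : Fin m, om (D.Bc (c j)) (D.z τ (σ (j, false))) (D.z τ (σ (j, true))) = 0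
  · rw [hz, mul_zero]
    exact ⟨le_rfl, fun _ => rfl⟩
  have hz := Finset.prod_ne_zero_iff.1 hz
  have h1 : ∀ j, (σ (j, false)).1 = (σ (j, true)).1 ∧ (σ (j, true)).2 = !(σ (j, false)).2 ∧
      D.Rel (c j) (τ (σ (j, false)).1) := by
    intro j
    by_contra hcon
    apply hz j (Finset.mem_univ j)
    rw [om_z hBC D (c j) τ hτ, if_neg hcon]
  set t : Fin m → Fin m := fun j => (σ (j, false)).1 with ht
  have hinj : Function.Injective t := by
    intro j k hjk
    simp only [ht] at hjk
    by_cases h2 : (σ (j, false)).2 = (σ (k, false)).2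
    · have h3 : σ (j, false) = σ (k, false) := Prod.ext hjk h2
      exact (Prod.ext_iff.1 (σ.injective h3)).1
    · have h3 : σ (j, true) = σ (k, false) := by
        refine Prod.ext ((h1 j).1.symm.trans hjk) ?_
        rw [(h1 j).2.1]
        revert h2
        cases (σ (j, false)).2 <;> cases (σ (k, false)).2 <;> simp
      exact (Prod.ext_iff.1 (σ.injective h3)).1
  set T : Equiv.Perm (Fin m) := Equiv.ofBijective t (Finite.injective_iff_bijective.1 hinj) with hT
  have hTj : ∀ j, T j = (σ (j, false)).1 := fun j => rfl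
  refine ⟨?_, fun hno => absurd ⟨T⁻¹, fun j => ?_⟩ hno⟩
  · set F : Fin m → Equiv.Perm Bool := fun j => if (σ (j, false)).2 then Equiv.swap false true else 1
      with hF
    have hσ : σ = Equiv.prodCongrLeft (fun _ : Bool => T) * Equiv.prodCongrRight F := by
      ext1 x
      obtain ⟨j, b⟩ := x
      simp only [Equiv.Perm.coe_mul, Function.comp_apply, Equiv.prodCongrRight_apply,
        Equiv.prodCongrLeft_apply]
      rw [hTj]
      cases b
      · refine Prod.ext rfl ?_
        simp only [hF]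
        cases h : (σ (j, false)).2 <;> simp
      · refine Prod.ext (h1 j).1.symm ?_
        rw [(h1 j).2.1]
        simp only [hF]
        cases h : (σ (j, false)).2 <;> simp
    have hs : ((Equiv.Perm.sign σ : ℤ) : ℝ) = ∏ j, (if (σ (j, false)).2 then (-1 : ℝ) else 1) := by
      have h3 : Equiv.Perm.sign σ = ∏ j, Equiv.Perm.sign (F j) := by
        conv_lhs => rw [hσ]
        rw [Equiv.Perm.sign_mul, Equiv.Perm.sign_prodCongrLeft, Equiv.Perm.sign_prodCongrRight]
        simp
      rw [h3]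
      push_cast
      refine Finset.prod_congr rfl fun j _ => ?_
      simp only [hF]
      cases h : (σ (j, false)).2 <;> simp
    rw [hs, ← Finset.prod_mul_distrib]
    refine Finset.prod_nonneg fun j _ => ?_
    rw [om_z hBC D (c j) τ hτ, if_pos (h1 j)]
    split_ifs <;> norm_num
  · have h := (h1 (T⁻¹ j)).2.2
    rw [← hTj] at h
    simpa using h

end ZZ

open ZZ in
theorem zz (h : S_BC) : S_Z := by
  classical
  intro r m D c τ hτ
  constructor
  · rintro ⟨π, hπ⟩
    unfold omProd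
    apply ne_of_gt
    refine Finset.sum_pos' (fun σ _ => (term_nonneg h D c τ hτ σ).1)
      ⟨Equiv.prodCongrLeft (fun _ : Bool => π⁻¹), Finset.mem_univ _, ?_⟩
    have hs : Equiv.Perm.sign (Equiv.prodCongrLeft (fun _ : Bool => π⁻¹)) = 1 := by
      rw [Equiv.Perm.sign_prodCongrLeft]
      simp
    rw [hs]
    simp only [Units.val_one, Int.cast_one, one_mul]
    refine Finset.prod_pos fun j _ => ?_
    rw [om_z h D (c j) τ hτ]
    have hj : D.Rel (c j) (τ (π⁻¹ j)) := by simpa using hπ (π⁻¹ j)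
    rw [if_pos ⟨by simp [Equiv.prodCongrLeft_apply], by simp [Equiv.prodCongrLeft_apply],
      by simpa [Equiv.prodCongrLeft_apply] using hj⟩]
    simp [Equiv.prodCongrLeft_apply]
  · intro hno
    unfold omProd
    refine Finset.sum_eq_zero fun σ _ => ?_
    rw [(term_nonneg h D c τ hτ σ).2 hno, mul_zero]

end Pool.Agent.W5h69.FG
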