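import Pool.Agent.W5h69.FG.A
import Pool.Agent.W5h69.FG.A2
import Pool.Agent.W5h69.FG.Bal
import Pool.Agent.W5h69.FG.C
import Pool.Agent.W5h69.FG.CC
import Pool.Agent.W5h69.FG.Om
import Pool.Agent.W5h69.FG.BC
import Pool.Agent.W5h69.FG.Z
import Pool.Agent.W5h69.FG.Alg
import Pool.Agent.W5h69.FG.Dual
import Pool.Agent.W5h69.FG.MP
import Pool.Agent.W5h69.FG.Gen
import Pool.Agent.W5h69.FM.Core

/-! The core theorem, semisimple groups. -/

open MeasureTheory Filter
open Pool.Agent.W5h69.FM (Vr To Form bil om actT actV InvUnder blockSL blockW const_all actT_u1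
  actT_u2 actV_u1 actV_u2)

noncomputable section

namespace Pool.Agent.W5h69.FG

theorem alg_all : S_ALG := alg (bal a a2) (cc (c a)) om_form bc (zz bc)

theorem actV_W {r : ℕ} (W : Weyl r) (i : Fin r) (v : Vr r × Vr r) :
    actV (blockW (W.S i)) v =
      (v.1 - (2 * bil W.B (W.ρ i) v.1 / bil W.B (W.ρ i) (W.ρ i)) • W.ρ i,
       v.2 - (2 * bil W.B (W.ρ i) v.2 / bil W.B (W.ρ i) (W.ρ i)) • W.ρ i) := by
  ext a
  · have h := W.refl i v.1 a
    simp only [actV, blockW, Matrix.fromBlocks_apply₁₁, Matrix.fromBlocks_apply₁₂,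
      Matrix.zero_apply, Int.cast_zero, zero_mul, Finset.sum_const_zero, add_zero]
    exact h
  · have h := W.refl i v.2 a
    simp only [actV, blockW, Matrix.fromBlocks_apply₂₁, Matrix.fromBlocks_apply₂₂,
      Matrix.zero_apply, Int.cast_zero, zero_mul, Finset.sum_const_zero, zero_add]
    exact h

theorem core {r : ℕ} (W : Weyl r) {ι : Type} [Fintype ι] [DecidableEq ι]
    (α : To r × To r → Form r ι) (hm : ∀ v, Measurable fun p => α p v)
    (h1 : InvUnder (blockSL !![1, 1; 0, 1]) α) (h2 : InvUnder (blockSL !![1, 0; 1, 1]) α)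
    (hW : ∀ i, InvUnder (blockW (W.S i)) α) : IsGenerated W α := by
  obtain ⟨β, hβ⟩ := const_all r ι α hm
    (by simpa only [InvUnder, actT_u1, actV_u1] using h1)
    (by simpa only [InvUnder, actT_u2, actV_u2] using h2)
  have hop : (volume : Measure (To r × To r)).IsOpenPosMeasure := by
    rw [Measure.volume_eq_prod]
    infer_instance
  have hne : (volume : Measure (To r × To r)) ≠ 0 := by
    intro h0
    have h1 := isOpen_univ.measure_ne_zero (volume : Measure (To r × To r)) Set.univ_nonempty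
    rw [h0] at h1
    simp at h1
  have : NeBot (ae (volume : Measure (To r × To r))) := ae_neBot.2 hne
  have h3 : ∀ (i : Fin r) (v : ι → Vr r × Vr r),
      β (fun t => actV (blockW (W.S i)) (v t)) = β v := by
    intro i v
    obtain ⟨p, hp1, hp2, hp3⟩ :=
      ((hW i).and (hβ.and ((mp r W i).quasiMeasurePreserving.ae hβ))).exists
    have h := hp1 v
    rw [hp2, hp3] at h
    exact h
  obtain ⟨D, hDB, hDρ⟩ := dual r W
  have hI : D.Inv β := by
    intro i v
    rw [← h3 i v]
    congr 1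
    funext t
    rw [actV_W]
    simp only [Refl.s, hDB, hDρ]
  obtain ⟨ha, hb⟩ := alg_all r D ι β hI
  refine ⟨fun hodd => ?_, fun m e => ?_⟩
  · filter_upwards [hβ] with p hp
    rw [hp, ha hodd]
  · obtain ⟨c, hc⟩ := hb m e
    refine ⟨∑ κ : Fin m → Fin r, c κ • omProd (fun j => D.Bc (κ j)), ?_, ?_⟩
    · exact Submodule.sum_mem _ fun κ _ => Submodule.smul_mem _ _ (prod_mem W D hDB hDρ κ)
    · filter_upwards [hβ] with p hp v
      rw [hp, hc v, Finset.sum_apply]
      rfl

end Pool.Agent.W5h69.FG
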