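import Pool.Agent.W5h69.FM.Defs

/-!
# MP_d52947_gt : semisimple groups (several components)
-/

open MeasureTheory
open Pool.Agent.W5h69.FM (Vr To Form bil om)

noncomputable section

namespace Pool.Agent.W5h69.FG

/-- `2^m` times the wedge product of the `2`-forms `ω_{B_j}`, `j < m`. -/
def omProd {r m : ℕ} (Bs : Fin m → Matrix (Fin r) (Fin r) ℝ) (v : Fin m × Bool → Vr r × Vr r) :
    ℝ :=
  ∑ σ : Equiv.Perm (Fin m × Bool), ((Equiv.Perm.sign σ : ℤ) : ℝ) *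
    ∏ j : Fin m, om (Bs j) (v (σ (j, false))) (v (σ (j, true)))

/-- A basis `ρ` of `ℝ^r` and the dual basis `ϖ` for a symmetric form `B`. -/
structure Refl (r : ℕ) where
  B : Matrix (Fin r) (Fin r) ℝ
  symm : ∀ i j, B i j = B j i
  ρ : Fin r → Vr r
  ϖ : Fin r → Vr r
  dual : ∀ i j, bil B (ρ i) (ϖ j) = if i = j then 1 else 0
  nz : ∀ i, bil B (ρ i) (ρ i) ≠ 0

/-- `i` and `j` are in the same component of the graph of `ρ` -/
def Refl.Rel {r : ℕ} (D : Refl r) (i j : Fin r) : Prop :=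
  Relation.ReflTransGen (fun a b => bil D.B (D.ρ a) (D.ρ b) ≠ 0) i j

/-- The reflection `x ↦ x - 2 B(ρ_i,x)/B(ρ_i,ρ_i) ρ_i`. -/
def Refl.s {r : ℕ} (D : Refl r) (i : Fin r) (x : Vr r) : Vr r :=
  x - (2 * bil D.B (D.ρ i) x / bil D.B (D.ρ i) (D.ρ i)) • D.ρ i

/-- invariance of a form under the diagonal action of the reflections -/
def Refl.Inv {r : ℕ} {ι : Type} (D : Refl r) (β : Form r ι) : Prop :=
  ∀ (i : Fin r) (v : ι → Vr r × Vr r), β (fun t => (D.s i (v t).1, D.s i (v t).2)) = β v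

/-- the first basis `(ρ_i, 0), (0, ϖ_j)` -/
def Refl.b1 {r : ℕ} (D : Refl r) : Fin r ⊕ Fin r → Vr r × Vr r :=
  Sum.elim (fun i => (D.ρ i, 0)) (fun j => (0, D.ϖ j))

/-- the second basis `(ϖ_i, 0), (0, ρ_j)` -/
def Refl.b2 {r : ℕ} (D : Refl r) : Fin r ⊕ Fin r → Vr r × Vr r :=
  Sum.elim (fun i => (D.ϖ i, 0)) (fun j => (0, D.ρ j))

/-- the vectors `(ρ_{τ j}, 0), (0, ϖ_{τ j})`, `j < m` -/
def Refl.z {r m : ℕ} (D : Refl r) (τ : Fin m → Fin r) : Fin m × Bool → Vr r × Vr r :=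
  fun x => if x.2 then (0, D.ϖ (τ x.1)) else (D.ρ (τ x.1), 0)

/-- (A) -/
def S_A : Prop := ∀ (r : ℕ) (D : Refl r) (ι : Type) [Fintype ι] [DecidableEq ι] (β : Form r ι),
  D.Inv β → ∀ (v : ι → Fin r ⊕ Fin r) (i : Fin r), (∃ t, v t = Sum.inl i) →
    (∀ t, v t ≠ Sum.inr i) → β (fun t => D.b1 (v t)) = 0

/-- (A2) mirror image of (A) -/
def S_A2 : Prop := ∀ (r : ℕ) (D : Refl r) (ι : Type) [Fintype ι] [DecidableEq ι] (β : Form r ι),
  D.Inv β → ∀ (v : ι → Fin r ⊕ Fin r) (i : Fin r), (∃ t, v t = Sum.inr i) →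
    (∀ t, v t ≠ Sum.inl i) → β (fun t => D.b2 (v t)) = 0

/-- (BAL) a nonzero value has as many `ρ` as `ϖ` -/
def S_BAL : Prop := ∀ (r : ℕ) (D : Refl r) (ι : Type) [Fintype ι] [DecidableEq ι] (β : Form r ι),
  D.Inv β → ∀ (v : ι → Fin r ⊕ Fin r), Function.Injective v →
    β (fun t => D.b1 (v t)) ≠ 0 →
    (∀ i, (∃ t, v t = Sum.inl i) ↔ ∃ t, v t = Sum.inr i)

/-- (C) sliding -/
def S_C : Prop := ∀ (r m : ℕ) (D : Refl r) (β : Form r (Fin m × Bool)), D.Inv β →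
  ∀ (τ : Fin m → Fin r) (j : Fin m) (b : Fin r), Function.Injective τ →
    (∀ l, τ l ≠ b) → bil D.B (D.ρ (τ j)) (D.ρ b) ≠ 0 →
    β (D.z τ) = β (D.z (Function.update τ j b))

/-- (CC) families with the same number of elements in every component have the same value: there
is a permutation `π` of the indices with `τ (π j)` in the component of `τ' j` for all `j` -/
def S_CC : Prop := ∀ (r m : ℕ) (D : Refl r) (β : Form r (Fin m × Bool)), D.Inv β →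
  ∀ (τ τ' : Fin m → Fin r), Function.Injective τ → Function.Injective τ' →
    (∃ π : Equiv.Perm (Fin m), ∀ j, D.Rel (τ (π j)) (τ' j)) →
    β (D.z τ) = β (D.z τ')

open Classical in
/-- the matrix of `B_c(x,y) = B(x_c, y)`, `x_c` the projection of `x` to the span of the `ρ_i`
with `i` in the component of `c` -/
def Refl.Bc {r : ℕ} (D : Refl r) (c : Fin r) : Matrix (Fin r) (Fin r) ℝ :=
  fun p q => ∑ i : Fin r, if D.Rel c i then
    bil D.B (D.ϖ i) (Pi.single p 1) * bil D.B (D.ρ i) (Pi.single q 1) else 0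

/-- (BC) properties of `B_c` -/
def S_BC : Prop := ∀ (r : ℕ) (D : Refl r) (c : Fin r),
  (∀ x y, bil (D.Bc c) x y = bil (D.Bc c) y x) ∧
  (∀ i x y, bil (D.Bc c) (D.s i x) (D.s i y) = bil (D.Bc c) x y) ∧
  (∀ i j, (D.Rel c i → bil (D.Bc c) (D.ρ i) (D.ϖ j) = if i = j then 1 else 0) ∧
    (¬ D.Rel c i → bil (D.Bc c) (D.ρ i) (D.ϖ j) = 0))

/-- (OM) the product is an alternating form -/
def S_OM : Prop := ∀ (r m : ℕ) (Bs : Fin m → Matrix (Fin r) (Fin r) ℝ),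
  ∃ Ω : Form r (Fin m × Bool), ∀ v, Ω v = omProd Bs v

/-- (Z) values of the products -/
def S_Z : Prop := ∀ (r m : ℕ) (D : Refl r) (c τ : Fin m → Fin r), Function.Injective τ →
  ((∃ π : Equiv.Perm (Fin m), ∀ j, D.Rel (c (π j)) (τ j)) →
    omProd (fun j => D.Bc (c j)) (D.z τ) ≠ 0) ∧
  ((¬ ∃ π : Equiv.Perm (Fin m), ∀ j, D.Rel (c (π j)) (τ j)) →
    omProd (fun j => D.Bc (c j)) (D.z τ) = 0)

/-- (ALG) invariant constant forms -/
def S_ALG : Prop := ∀ (r : ℕ) (D : Refl r) (ι : Type) [Fintype ι] [DecidableEq ι] (β : Form r ι),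
  D.Inv β → (Odd (Fintype.card ι) → β = 0) ∧
    ∀ (m : ℕ) (e : Fin m × Bool ≃ ι), ∃ c : (Fin m → Fin r) → ℝ, ∀ v : ι → Vr r × Vr r,
      β v = ∑ κ : Fin m → Fin r, c κ * omProd (fun j => D.Bc (κ j)) (fun x => v (e x))

end Pool.Agent.W5h69.FG
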