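import Pool.Agent.W5h69.FG.Defs
import Pool.Agent.W5h69.FM.Defs2

/-!
# MP_d52947_gt : semisimple groups, the final statements
-/

open MeasureTheory
open Pool.Agent.W5h69.FM (Vr To Form bil om actT actV InvUnder blockSL blockW)

noncomputable section

namespace Pool.Agent.W5h69.FG

/-- The Weyl group of a semisimple group acting on the cocharacter lattice `ℤ^r` of the torus: an
invariant inner product `B`, a basis `ρ` of `ℝ^r` (the simple coroots), and integer matrices
`S i`, the reflections in the `ρ i`. -/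
structure Weyl (r : ℕ) where
  B : Matrix (Fin r) (Fin r) ℝ
  symm : ∀ i j, B i j = B j i
  pos : ∀ x : Vr r, x ≠ 0 → 0 < bil B x x
  ρ : Fin r → Vr r
  indep : LinearIndependent ℝ ρ
  S : Fin r → Matrix (Fin r) (Fin r) ℤ
  refl : ∀ (i : Fin r) (x : Vr r) (a : Fin r),
    ∑ b, (S i a b : ℝ) * x b = (x - (2 * bil B (ρ i) x / bil B (ρ i) (ρ i)) • ρ i) a

/-- `B'` is an inner product invariant under the reflections of `W`. -/
structure Weyl.InvInner {r : ℕ} (W : Weyl r) (B' : Matrix (Fin r) (Fin r) ℝ) : Prop where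
  symm : ∀ i j, B' i j = B' j i
  pos : ∀ x : Vr r, x ≠ 0 → 0 < bil B' x x
  inv : ∀ (i : Fin r) (x y : Vr r),
    bil B' (fun a => ∑ b, (W.S i a b : ℝ) * x b) (fun a => ∑ b, (W.S i a b : ℝ) * y b) =
      bil B' x y

/-- The linear span of the products `ω_{B_1} ∧ ... ∧ ω_{B_m}`, every `B_j` an inner product
invariant under `W`. -/
def Weyl.Gen {r : ℕ} (W : Weyl r) (m : ℕ) : Submodule ℝ ((Fin m × Bool → Vr r × Vr r) → ℝ) :=
  Submodule.span ℝ {f | ∃ Bs : Fin m → Matrix (Fin r) (Fin r) ℝ,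
    (∀ j, W.InvInner (Bs j)) ∧ f = omProd Bs}

/-- `α` is almost everywhere `0` if the degree is odd, and almost everywhere equal to one element
of the span of the products `ω_{B_1} ∧ ... ∧ ω_{B_m}` if the degree is `2m`. -/
def IsGenerated {r : ℕ} {ι : Type} [Fintype ι] (W : Weyl r)
    (α : To r × To r → Form r ι) : Prop :=
  (Odd (Fintype.card ι) → ∀ᵐ p : To r × To r, α p = 0) ∧
  ∀ (m : ℕ) (e : Fin m × Bool ≃ ι), ∃ f ∈ W.Gen m, ∀ᵐ p : To r × To r,
    ∀ v : ι → Vr r × Vr r, α p v = f (fun x => v (e x))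

/-- (DUAL) the dual basis -/
def S_DUAL : Prop := ∀ (r : ℕ) (W : Weyl r), ∃ D : Refl r, D.B = W.B ∧ D.ρ = W.ρ

/-- (MP) the reflections preserve the Haar measure of `T × T` -/
def S_MP : Prop := ∀ (r : ℕ) (W : Weyl r) (i : Fin r),
  MeasurePreserving (actT (blockW (W.S i))) (volume : Measure (To r × To r)) volume

end Pool.Agent.W5h69.FG
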